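import Pool.Agent.Lib.MP_7f80d9_lc.Red2

namespace Pool.Agent.Results.MP_7f80d9_lc.ClawW2Hard

open Pool.Agent.Lib.MP_7f80d9_lc

/-- A polynomial-time reduction from Dominating Set to Claw-Free Contraction that keeps the
parameter. -/
theorem result : ∃ f : Inst → Inst,
    Nonempty (Turing.TM2ComputableInPolyTime Inst.code Inst.code f) ∧
    ∀ I : Inst, (f I).k = I.k ∧
      ((∃ D : Finset (Fin I.n), D.card ≤ I.k ∧ ∀ v, v ∈ D ∨ ∃ u ∈ D, I.G.Adj u v) ↔
        ClawFreeContractible (f I).k (f I).G) :=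
  DS.main

end Pool.Agent.Results.MP_7f80d9_lc.ClawW2Hard
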